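import Pool.Agent.Y121.TP.Frob
import Mathlib.LinearAlgebra.PID

/-!
# Rationality and weights for geometric noncommutative motives
-/

open CategoryTheory AlgebraicGeometry Polynomial

universe u v

namespace Pool.Agent.Y121.TP

open Pool.Agent.H914 Pool.Agent.H914.VarClass Pool.Agent.H914.VarClass.Obj Pool.Agent.W492.BB
  Pool.Agent.W550.Corr Pool.Agent.TH133 Pool.Agent.Y121.NK

set_option linter.unusedSectionVars false

variable {k : Type u} [Field k] {𝒱 : VarClass k} {C : TheoryData.{u, v, 0} 𝒱 ℚ}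
  [hC : IsChowProj C] {K : Type} [Field K] [CharZero K] (H : WeilTheoryData.{u, v, 0} C K)
  [hH : IsWeilProj H] {X : 𝒱.Obj}

include hC hH

/-- Induction on `TP_n(X)`. -/
lemma TPX_eqOn {n : ℤ} {M : Type*} [AddCommGroup M] [Module K M] {f g : H.A X →ₗ[K] M}
    (h : ∀ (i : ℤ) (a : H.A X), a ∈ H.gr X (2 * i + n) → f a = g a) {a : H.A X}
    (ha : a ∈ TPX H X n) : f a = g a := by
  have h1 : TPX H X n ≤ LinearMap.eqLocus f g := iSup_le fun i x hx => h i x hx
  exact h1 ha

lemma TPX_map {n : ℤ} (f : H.A X →ₗ[K] H.A X)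
    (h : ∀ (i : ℤ) (a : H.A X), a ∈ H.gr X (2 * i + n) → f a ∈ TPX H X n) {a : H.A X}
    (ha : a ∈ TPX H X n) : f a ∈ TPX H X n := by
  have h1 : TPX H X n ≤ (TPX H X n).comap f := iSup_le fun i x hx => h i x hx
  exact h1 ha

lemma mem_TPX {n i : ℤ} {a : H.A X} (ha : a ∈ H.gr X (2 * i + n)) : a ∈ TPX H X n :=
  (le_iSup (fun i : ℤ => H.gr X (2 * i + n)) i) ha

lemma act_TPX (x : Cor C X) {n : ℤ} {a : H.A X} (ha : a ∈ TPX H X n) :
    actH C X H x a ∈ TPX H X n := by
  refine TPX_map H (actH C X H x) (fun i b hb => ?_) ha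
  rw [← (grading C X).sum_pr x, map_sum, LinearMap.sum_apply]
  refine Submodule.sum_mem _ fun j _ => ?_
  have h1 := actH_shift H ((grading C X).pr_self j x) hb
  have h2 : 2 * i + n + 2 * j = 2 * (i + j) + n := by ring
  rw [h2] at h1
  exact mem_TPX H h1

variable {q : ℕ} {φ : X ⟶ X}

section

variable [FiniteDimensional K (H.A X)] (hφ : IsFrob H q φ) {n : ℤ} {F : H.A X →ₗ[K] H.A X}
  (hF : IsCycFrob H q φ n F)

include hφ

lemma q_ne : (q : K) ≠ 0 := by
  have := hφ.one_lt
  exact_mod_cast (by omega : q ≠ 0)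

include hF

/-- The cyclotomic Frobenius commutes with all correspondences. -/
lemma cyc_comm (x : Cor C X) {a : H.A X} (ha : a ∈ TPX H X n) :
    F (actH C X H x a) = actH C X H x (F a) := by
  have hq := q_ne H hφ
  refine TPX_eqOn H (f := F ∘ₗ actH C X H x) (g := actH C X H x ∘ₗ F) (fun i b hb => ?_) ha
  rw [LinearMap.comp_apply, LinearMap.comp_apply, ← (grading C X).sum_pr x, map_sum,
    LinearMap.sum_apply, map_sum, LinearMap.sum_apply]
  refine Finset.sum_congr rfl fun j _ => ?_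
  set y := (grading C X).pr j x with hy
  have hyj : (grading C X).pr j y = y := (grading C X).pr_self j x
  have h1 := actH_shift H hyj hb
  have h2 : 2 * i + n + 2 * j = 2 * (i + j) + n := by ring
  rw [h2] at h1
  rw [hF i b hb, hF (i + j) _ h1, map_smul]
  change ((q : K) ^ (i + j))⁻¹ • H.pull φ (actH C X H y b) =
    ((q : K) ^ i)⁻¹ • actH C X H y (H.pull φ b)
  rw [frob_act H hφ hyj, smul_smul]
  congr 1
  rw [zpow_add₀ hq]
  have h3 : (q : K) ^ j ≠ 0 := zpow_ne_zero _ hq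
  field_simp

lemma F_gr {i : ℤ} {a : H.A X} (ha : a ∈ H.gr X (2 * i + n)) : F a ∈ H.gr X (2 * i + n) := by
  rw [hF i a ha]
  exact Submodule.smul_mem _ _ (H.pull_mem φ ha)

lemma F_TPX {a : H.A X} (ha : a ∈ TPX H X n) : F a ∈ TPX H X n :=
  TPX_map H F (fun _ _ hb => mem_TPX H (F_gr H hφ hF hb)) ha

lemma F_pow_gr {i : ℤ} (m : ℕ) {a : H.A X} (ha : a ∈ H.gr X (2 * i + n)) :
    (F ^ m) a = (((q : K) ^ i)⁻¹) ^ m • ((H.pull φ).toLinearMap ^ m) a ∧
      ((H.pull φ).toLinearMap ^ m) a ∈ H.gr X (2 * i + n) := by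
  induction m with
  | zero =>
    rw [pow_zero, pow_zero, pow_zero, one_smul]
    exact ⟨rfl, ha⟩
  | succ m ih =>
    obtain ⟨h1, h2⟩ := ih
    rw [pow_succ', pow_succ', pow_succ', Module.End.mul_apply, Module.End.mul_apply, h1, map_smul,
      hF i _ h2, smul_smul]
    exact ⟨by rw [mul_comm]; rfl, H.pull_mem φ h2⟩

end

/-- The projection onto `TP_n(X)`. -/
noncomputable def prj (X : 𝒱.Obj) (n : ℤ) : H.A X →ₗ[K] H.A X :=
  (2 : K)⁻¹ • (LinearMap.id + ((-1 : K) ^ n) • sgn H X)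

lemma prj_self {n i : ℤ} {a : H.A X} (ha : a ∈ H.gr X (2 * i + n)) : prj H X n a = a := by
  have h1 : (-1 : K) ^ n * (-1 : K) ^ (2 * i + n) = 1 := by
    rw [← zpow_add₀ (by norm_num : (-1 : K) ≠ 0)]
    apply Even.neg_one_zpow
    have : n + (2 * i + n) = 2 * (i + n) := by ring
    rw [this]
    exact even_two_mul _
  rw [prj, LinearMap.smul_apply, LinearMap.add_apply, LinearMap.id_apply, LinearMap.smul_apply,
    sgn_apply H ha, smul_smul, h1, one_smul, ← two_smul K a, smul_smul,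
    inv_mul_cancel₀ two_ne_zero, one_smul]

lemma prj_other {n i : ℤ} {a : H.A X} (ha : a ∈ H.gr X (2 * i + 1 + n)) : prj H X n a = 0 := by
  have h1 : (-1 : K) ^ n * (-1 : K) ^ (2 * i + 1 + n) = -1 := by
    rw [← zpow_add₀ (by norm_num : (-1 : K) ≠ 0)]
    apply Odd.neg_one_zpow
    refine ⟨i + n, ?_⟩
    ring
  rw [prj, LinearMap.smul_apply, LinearMap.add_apply, LinearMap.id_apply, LinearMap.smul_apply,
    sgn_apply H ha, smul_smul, h1, neg_smul, one_smul, add_neg_cancel, smul_zero]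

lemma prj_of_mem {n : ℤ} {a : H.A X} (ha : a ∈ TPX H X n) : prj H X n a = a :=
  TPX_eqOn H (f := prj H X n) (g := LinearMap.id) (fun _ _ hb => prj_self H hb) ha

omit hC hH in
lemma parity (n w : ℤ) : (∃ i, w = 2 * i + n) ∨ (∃ i, w = 2 * i + 1 + n) := by
  rcases Int.even_or_odd' (w - n) with ⟨i, hi | hi⟩
  · exact Or.inl ⟨i, by omega⟩
  · exact Or.inr ⟨i, by omega⟩

lemma prj_mem (n : ℤ) (a : H.A X) : prj H X n a ∈ TPX H X n := by
  have h1 : (⊤ : Submodule K (H.A X)) ≤ (TPX H X n).comap (prj H X n) := by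
    rw [← (H.isInternal X).submodule_iSup_eq_top]
    refine iSup_le fun w b hb => ?_
    rw [Submodule.mem_comap]
    rcases parity n w with ⟨i, rfl⟩ | ⟨i, rfl⟩
    · rw [prj_self H hb]
      exact mem_TPX H hb
    · rw [prj_other H hb]
      exact Submodule.zero_mem _
  exact h1 Submodule.mem_top

lemma sgn_TPX {n : ℤ} {a : H.A X} (ha : a ∈ TPX H X n) :
    sgn H X a = ((-1 : K) ^ n) • a := by
  refine TPX_eqOn H (f := sgn H X) (g := ((-1 : K) ^ n) • LinearMap.id) (fun i b hb => ?_) ha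
  rw [sgn_apply H hb, LinearMap.smul_apply, LinearMap.id_apply]
  congr 1
  apply neg_one_zpow_mod
  have : 2 * i + n - n = 2 * i := by ring
  rw [this]
  exact even_two_mul _

/-! ### Separation of the degrees -/

section main

variable [FiniteDimensional K (H.A X)]

lemma aeval_gr (φ : X ⟶ X) {w : ℤ} {a : H.A X} (ha : a ∈ H.gr X w) (Q : K[X]) :
    aeval (H.pull φ).toLinearMap Q a = ((aeval (frobH H φ w) Q ⟨a, ha⟩ : H.gr X w) : H.A X) :=
  (aeval_restrict (H.pull φ).toLinearMap (H.gr X w) (fun _ hx => H.pull_mem φ hx) Q ⟨a, ha⟩).symm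

lemma charpoly_gr (φ : X ⟶ X) {w : ℤ} {a : H.A X} (ha : a ∈ H.gr X w) {P Q : ℚ[X]}
    (hP : (frobH H φ w).charpoly = P.map (algebraMap ℚ K)) (hPQ : P ∣ Q) :
    aeval (H.pull φ).toLinearMap (Q.map (algebraMap ℚ K)) a = 0 := by
  obtain ⟨R, rfl⟩ := hPQ
  rw [aeval_gr H φ ha, Polynomial.map_mul, map_mul, ← hP, LinearMap.aeval_self_charpoly, zero_mul]
  rfl

lemma mem_Icc_of_ne {w : ℤ} {a : H.A X} (ha : a ∈ H.gr X w) (h0 : a ≠ 0) :
    w ∈ Finset.Icc (0 : ℤ) (2 * X.dim) := by
  rw [Finset.mem_Icc]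
  refine ⟨nonneg_of_mem H ha h0, ?_⟩
  by_contra h3
  rw [gr_top H (by omega : 2 * (X.dim : ℤ) < w)] at ha
  exact h0 ((Submodule.mem_bot _).1 ha)

/-- The powers of the cyclotomic Frobenius on `TP_n(X)` are algebraic. -/
theorem exists_pow_cor {q : ℕ} {φ : X ⟶ X} (hφ : IsFrob H q φ) {n : ℤ} {F : H.A X →ₗ[K] H.A X}
    (hF : IsCycFrob H q φ n F) (m : ℕ) :
    ∃ x : Cor C X, actH C X H x = (F ^ m) ∘ₗ prj H X n := by
  classical
  choose P hP hPz using weil' H hφ
  set s := Finset.Icc (0 : ℤ) (2 * X.dim) with hs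
  have hq1 : (1 : ℝ) < q := by exact_mod_cast hφ.one_lt
  obtain ⟨t, ht⟩ := exists_sep s P (by
    intro i _ j _ hij
    refine coprime_of_norm (a := (q : ℝ) ^ ((i : ℝ) / 2)) (b := (q : ℝ) ^ ((j : ℝ) / 2)) ?_
      (hPz i) (hPz j)
    intro h
    apply hij
    have h2 := (Real.strictMono_rpow_of_base_gt_one hq1).injective h
    have h3 : (i : ℝ) = j := by linarith
    exact_mod_cast h3)
  set v : ℚ[X] := ∑ w ∈ s.filter (fun w => Even (w - n)),
    Polynomial.C ((((q : ℚ) ^ ((w - n) / 2))⁻¹) ^ m) * Polynomial.X ^ m * t w with hv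
  refine ⟨aeval (gam C φ) v, ?_⟩
  rw [actH_aeval]
  apply ext_gr H
  intro w a ha
  by_cases ha0 : a = 0
  · rw [ha0, map_zero, map_zero]
  have hws := mem_Icc_of_ne H ha ha0
  have ht0 : ∀ w' ∈ s, w' ≠ w →
      aeval (H.pull φ).toLinearMap ((t w').map (algebraMap ℚ K)) a = 0 := by
    intro w' hw' hne
    exact charpoly_gr H φ ha (hP w) ((ht w' hw').2 w hws hne.symm)
  have ht1 : aeval (H.pull φ).toLinearMap ((t w).map (algebraMap ℚ K)) a = a := by
    have h1 := charpoly_gr H φ ha (hP w) (ht w hws).1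
    rw [Polynomial.map_sub, Polynomial.map_one, map_sub, map_one, LinearMap.sub_apply,
      Module.End.one_apply, sub_eq_zero] at h1
    exact h1
  have hterm : ∀ w' : ℤ, aeval (H.pull φ).toLinearMap
      ((Polynomial.C ((((q : ℚ) ^ ((w' - n) / 2))⁻¹) ^ m) * Polynomial.X ^ m * t w').map (algebraMap ℚ K)) a =
      ((((q : K) ^ ((w' - n) / 2))⁻¹) ^ m) • ((H.pull φ).toLinearMap ^ m)
        (aeval (H.pull φ).toLinearMap ((t w').map (algebraMap ℚ K)) a) := by
    intro w'
    rw [Polynomial.map_mul, Polynomial.map_mul, Polynomial.map_C, Polynomial.map_pow,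
      Polynomial.map_X, map_mul, map_mul, aeval_C, aeval_X_pow, Module.End.mul_apply,
      Module.End.mul_apply, Module.algebraMap_end_apply]
    congr 1
    rw [map_pow, map_inv₀, map_zpow₀, map_natCast]
  rw [hv, Polynomial.map_sum, map_sum, LinearMap.sum_apply,
    Finset.sum_congr rfl (fun w' _ => hterm w'), LinearMap.comp_apply]
  rcases parity n w with ⟨i, rfl⟩ | ⟨i, rfl⟩
  · have hmem : 2 * i + n ∈ s.filter (fun w => Even (w - n)) := by
      rw [Finset.mem_filter]
      refine ⟨hws, ?_⟩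
      rw [add_sub_cancel_right]
      exact even_two_mul _
    rw [Finset.sum_eq_single_of_mem _ hmem]
    · rw [ht1, prj_self H ha, (F_pow_gr H hφ hF m ha).1]
      congr 4
      omega
    · intro w' hw' hne
      rw [ht0 w' (Finset.mem_filter.1 hw').1 hne, map_zero, smul_zero]
  · rw [prj_other H ha, map_zero]
    refine Finset.sum_eq_zero fun w' hw' => ?_
    rw [ht0 w' (Finset.mem_filter.1 hw').1, map_zero, smul_zero]
    rintro rfl
    have h2 := (Finset.mem_filter.1 hw').2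
    rw [Int.even_iff] at h2
    omega

/-- The traces of the powers of the cyclotomic Frobenius composed with a correspondence. -/
theorem trace_rational (hcomm : GradedComm H) {q : ℕ} {φ : X ⟶ X} (hφ : IsFrob H q φ) {n : ℤ}
    {F : H.A X →ₗ[K] H.A X} (hF : IsCycFrob H q φ n F) (m : ℕ) (y : Cor C X) :
    ∃ r : ℚ, LinearMap.trace K (H.A X) ((F ^ m) ∘ₗ prj H X n ∘ₗ actH C X H y) = (r : K) := by
  have hne : ∀ X : 𝒱.Obj, (1 : C.A X) ≠ 0 := by
    intro Z h
    have h1 := congrArg H.cl h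
    rw [map_one, map_zero] at h1
    exact hH.one_ne_zero Z h1
  obtain ⟨x, hx⟩ := exists_pow_cor H hφ hF m
  have h1 : (F ^ m) ∘ₗ prj H X n ∘ₗ actH C X H y = actH C X H (x * y) := by
    rw [← LinearMap.comp_assoc, ← hx, map_mul]
    rfl
  have h2 : sgn H X ∘ₗ actH C X H (x * y) = ((-1 : K) ^ n) • actH C X H (x * y) := by
    rw [← h1]
    apply LinearMap.ext
    intro a
    rw [LinearMap.comp_apply, LinearMap.smul_apply]
    apply sgn_TPX
    rw [LinearMap.comp_apply, LinearMap.comp_apply]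
    have h3 : ∀ (l : ℕ) (b : H.A X), b ∈ TPX H X n → (F ^ l) b ∈ TPX H X n := by
      intro l
      induction l with
      | zero => intro b hb; exact hb
      | succ l ih =>
        intro b hb
        rw [pow_succ, Module.End.mul_apply]
        exact ih _ (F_TPX H hφ hF hb)
    exact h3 m _ (prj_mem H n _)
  have h3 := trace_cor H hcomm hne X (x * y)
  have h4 : LinearMap.trace K (H.A X) (sgn H X ∘ₗ actH C X H (x * y)) =
      (trA hne X (x * y) : K) := h3
  rw [h2, map_smul, smul_eq_mul] at h4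
  have h5 : (-1 : K) ^ n * (-1 : K) ^ n = 1 := by
    rw [← zpow_add₀ (by norm_num : (-1 : K) ≠ 0)]
    apply Even.neg_one_zpow
    exact ⟨n, rfl⟩
  have h6 : LinearMap.trace K (H.A X) (actH C X H (x * y)) =
      (-1 : K) ^ n * (trA hne X (x * y) : K) := by
    rw [← h4, ← mul_assoc, h5, one_mul]
  refine ⟨(-1 : ℚ) ^ n * trA hne X (x * y), ?_⟩
  rw [h1, h6, Rat.cast_mul, Rat.cast_zpow, Rat.cast_neg, Rat.cast_one]

/-- The main theorem. -/
theorem main (hcomm : GradedComm H) {q : ℕ} {φ : X ⟶ X} (hφ : IsFrob H q φ) {n : ℤ}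
    {F : H.A X →ₗ[K] H.A X} (hF : IsCycFrob H q φ n F) {e : C.A (X.prod X)}
    (he : HomEq H (C.comp e e) e) :
    RatWeight q n F (TPmot H e n) := by
  classical
  obtain ⟨y, rfl⟩ : ∃ y : Cor C X, cA C X y = e := ⟨e, rfl⟩
  have hidem : ∀ a, actH C X H y (actH C X H y a) = actH C X H y a := by
    intro a
    have h1 : actH C X H (y * y) a = actH C X H y a := by
      change H.act (H.cl (cA C X (y * y))) a = H.act (H.cl (cA C X y)) a
      rw [cA_mul]
      exact congrArg (fun t => H.act t a) he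
    rw [map_mul] at h1
    exact h1
  have hmem : ∀ {a : H.A X}, a ∈ TPX H X n → actH C X H y a ∈ TPmot H (cA C X y) n :=
    fun {a} ha => ⟨a, ha, rfl⟩
  have hE : ∀ x ∈ TPmot H (cA C X y) n, F x ∈ TPmot H (cA C X y) n := by
    rintro _ ⟨b, hb, rfl⟩
    change F (actH C X H y b) ∈ _
    rw [cyc_comm H hφ hF y hb]
    exact hmem (F_TPX H hφ hF hb)
  have hE1 : ∀ x ∈ TPmot H (cA C X y) n, x ∈ TPX H X n := by
    rintro _ ⟨b, hb, rfl⟩
    exact act_TPX H y hb
  have hE2 : ∀ x ∈ TPmot H (cA C X y) n, actH C X H y x = x := by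
    rintro _ ⟨b, hb, rfl⟩
    exact hidem b
  have hpow : ∀ (m : ℕ) (x : H.A X), x ∈ TPmot H (cA C X y) n →
      (F ^ m) x ∈ TPmot H (cA C X y) n := by
    intro m
    induction m with
    | zero => intro x hx; exact hx
    | succ m ih =>
      intro x hx
      rw [pow_succ, Module.End.mul_apply]
      exact ih _ (hE x hx)
  have hprj : ∀ a, prj H X n (actH C X H y a) = actH C X H y (prj H X n a) := by
    intro a
    have h1 := LinearMap.congr_fun (sgn_act H y) a
    rw [LinearMap.comp_apply, LinearMap.comp_apply] at h1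
    rw [prj, LinearMap.smul_apply, LinearMap.smul_apply, LinearMap.add_apply,
      LinearMap.add_apply, LinearMap.smul_apply, LinearMap.smul_apply, LinearMap.id_apply,
      LinearMap.id_apply, map_smul, map_add, map_smul, h1]
  -- rationality
  obtain ⟨P, hP⟩ := charpoly_rational_of_trace (F.restrict hE) (by
    intro m _
    obtain ⟨r, hr⟩ := trace_rational H hcomm hφ hF m y
    refine ⟨r, ?_⟩
    rw [← hr]
    have hT : ∀ x, ((F ^ m) ∘ₗ prj H X n ∘ₗ actH C X H y) x ∈ TPmot H (cA C X y) n := by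
      intro x
      rw [LinearMap.comp_apply, LinearMap.comp_apply, hprj]
      exact hpow m _ (hmem (prj_mem H n x))
    rw [← LinearMap.trace_restrict_eq_of_forall_mem (TPmot H (cA C X y) n) _ hT]
    congr 1
    apply LinearMap.ext
    intro x
    apply Subtype.ext
    rw [pow_restrict_coe, LinearMap.coe_restrict_apply, LinearMap.comp_apply,
      LinearMap.comp_apply, hE2 x x.2, prj_of_mem H (hE1 x x.2)])
  refine ⟨hE, P, hP, ?_⟩
  -- weights
  intro z hz
  choose R hR hRz using weil' H hφ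
  set s := (Finset.Icc (0 : ℤ) (2 * X.dim)).filter (fun w => Even (w - n)) with hs
  have hq0 : (q : K) ≠ 0 := q_ne H hφ
  set Q : ℚ[X] := ∏ w ∈ s, (R w).comp (Polynomial.C ((q : ℚ) ^ ((w - n) / 2)) * Polynomial.X) with hQ
  have hkill : ∀ x ∈ TPX H X n, aeval F (Q.map (algebraMap ℚ K)) x = 0 := by
    intro x hx
    refine TPX_eqOn H (f := aeval F (Q.map (algebraMap ℚ K))) (g := 0) (fun i a ha => ?_) hx
    rw [LinearMap.zero_apply]
    by_cases ha0 : a = 0
    · rw [ha0, map_zero]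
    have hws : 2 * i + n ∈ s := by
      rw [hs, Finset.mem_filter]
      refine ⟨mem_Icc_of_ne H ha ha0, ?_⟩
      rw [add_sub_cancel_right]
      exact even_two_mul _
    obtain ⟨S, hS⟩ := Finset.dvd_prod_of_mem
      (fun w => (R w).comp (Polynomial.C ((q : ℚ) ^ ((w - n) / 2)) * Polynomial.X)) hws
    rw [hQ, hS, mul_comm, Polynomial.map_mul, map_mul, Module.End.mul_apply]
    have h1 : aeval F (((R (2 * i + n)).comp
        (Polynomial.C ((q : ℚ) ^ ((2 * i + n - n) / 2)) * Polynomial.X)).map (algebraMap ℚ K)) a = 0 := by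
      have e1 : (2 * i + n - n) / 2 = i := by omega
      rw [e1, Polynomial.map_comp, aeval_comp, Polynomial.map_mul, Polynomial.map_C,
        Polynomial.map_X, map_mul, aeval_C, aeval_X, map_zpow₀, map_natCast, ← Algebra.smul_def]
      have h2 : ∀ x ∈ H.gr X (2 * i + n), (((q : K) ^ i) • F) x ∈ H.gr X (2 * i + n) :=
        fun x hx => Submodule.smul_mem _ _ (F_gr H hφ hF hx)
      have h3 : LinearMap.restrict (((q : K) ^ i) • F) h2 = frobH H φ (2 * i + n) := by
        apply LinearMap.ext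
        intro x
        apply Subtype.ext
        rw [LinearMap.coe_restrict_apply, LinearMap.smul_apply, hF i x x.2, smul_smul,
          mul_inv_cancel₀ (zpow_ne_zero _ hq0), one_smul]
        rfl
      have h4 := aeval_restrict (((q : K) ^ i) • F) (H.gr X (2 * i + n)) h2
        ((R (2 * i + n)).map (algebraMap ℚ K)) ⟨a, ha⟩
      rw [h3, ← hR, LinearMap.aeval_self_charpoly] at h4
      rw [← hR]
      exact h4.symm
    rw [h1, map_zero]
  have hdvd := charpoly_dvd (F.restrict hE) (Q.map (algebraMap ℚ K)) (by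
    apply LinearMap.ext
    intro x
    apply Subtype.ext
    rw [aeval_restrict, hkill x (hE1 x x.2)]
    rfl)
  rw [hP] at hdvd
  have hroot := root_of_dvd hdvd hz
  rw [hQ, map_prod, Finset.prod_eq_zero_iff] at hroot
  obtain ⟨w, hw, hw0⟩ := hroot
  rw [hs, Finset.mem_filter] at hw
  obtain ⟨i, hi⟩ := hw.2
  have e1 : (w - n) / 2 = i := by omega
  rw [e1, aeval_comp, map_mul, aeval_C, aeval_X, map_zpow₀, map_natCast] at hw0
  have h5 := hRz w _ hw0
  have hq1 : (0 : ℝ) < q := by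
    have := hφ.one_lt
    exact_mod_cast (by omega : 0 < q)
  rw [norm_mul, norm_zpow, Complex.norm_natCast] at h5
  have h6 : (q : ℝ) ^ ((w : ℝ) / 2) = (q : ℝ) ^ i * (q : ℝ) ^ ((n : ℝ) / 2) := by
    rw [← Real.rpow_intCast, ← Real.rpow_add hq1]
    congr 1
    have : (w : ℝ) = i + i + n := by
      have h7 : w = i + i + n := by omega
      rw [h7]
      push_cast
      ring
    rw [this]
    ring
  rw [h6] at h5
  exact mul_left_cancel₀ (zpow_ne_zero _ hq1.ne') h5

end main

end Pool.Agent.Y121.TP
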