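import Pool.Agent.Y121.NK.HomDefs
import Mathlib.LinearAlgebra.Charpoly.Basic
import Mathlib.Analysis.Complex.Basic
import Mathlib.Analysis.SpecialFunctions.Pow.Real

/-!
# Topological periodic cyclic homology of geometric noncommutative motives: definitions
-/

open CategoryTheory AlgebraicGeometry Polynomial

universe u v

namespace Pool.Agent.Y121.TP

open Pool.Agent.H914 Pool.Agent.H914.VarClass Pool.Agent.H914.VarClass.Obj Pool.Agent.W492.BB
  Pool.Agent.W550.Corr Pool.Agent.TH133 Pool.Agent.Y121.NK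

variable {k : Type u} [Field k] {𝒱 : VarClass k} {C : TheoryData.{u, v, 0} 𝒱 ℚ} {K : Type}
  [Field K]

/-- The subspace `N` of `V` is stable under the endomorphism `f` of `V`, the characteristic
polynomial of `f` on `N` has rational coefficients, and all its complex roots have absolute value
`q^(w/2)`. -/
def RatWeight {V : Type v} [AddCommGroup V] [Module K V] [FiniteDimensional K V] [CharZero K]
    (q : ℕ) (w : ℤ) (f : V →ₗ[K] V) (N : Submodule K V) : Prop :=
  ∃ (h : ∀ x ∈ N, f x ∈ N) (P : ℚ[X]), (f.restrict h).charpoly = P.map (algebraMap ℚ K) ∧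
    ∀ z : ℂ, aeval z P = 0 → ‖z‖ = (q : ℝ) ^ ((w : ℝ) / 2)

/-- The pull-back under `φ × φ` is the multiplication by `q^c` on `CH^c(X × X)_ℚ`, and `φ` has
degree `q^(dim X)`. -/
def FrobCH (C : TheoryData.{u, v, 0} 𝒱 ℚ) {X : 𝒱.Obj} (q : ℕ) (φ : X ⟶ X) : Prop :=
  (∀ (c : ℤ) (z : C.A (X.prod X)), C.Deg c z → C.up (prodMap φ φ) z = (q : ℚ) ^ c • z) ∧
    C.down φ (1 : C.A X) = (q : ℚ) ^ X.dim • (1 : C.A X)

/-- The properties of the `q`-power Frobenius `φ` of a variety `X` over `𝔽_q` which are used: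
those of `FrobCH`, and (Deligne, Katz-Messing) the characteristic polynomial of `φ^*` on `H^w(X)`
has rational coefficients, and all its complex roots have absolute value `q^(w/2)`. -/
structure IsFrob [CharZero K] (H : WeilTheoryData.{u, v, 0} C K) {X : 𝒱.Obj}
    [FiniteDimensional K (H.A X)] (q : ℕ) (φ : X ⟶ X) : Prop where
  one_lt : 1 < q
  frobCH : FrobCH C q φ
  weil : ∀ w : ℤ, RatWeight q w (H.pull φ).toLinearMap (H.gr X w)

/-- `TP_n(X) = ⊕_i H^(2 i + n)(X)(i)`. -/
def TPX (H : WeilTheoryData.{u, v, 0} C K) (X : 𝒱.Obj) (n : ℤ) : Submodule K (H.A X) :=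
  ⨆ i : ℤ, H.gr X (2 * i + n)

/-- `TP_n` of the noncommutative motive `(X, e)`: the image of `TP_n(X)` under the correspondence
`e` (of any degrees). -/
noncomputable def TPmot (H : WeilTheoryData.{u, v, 0} C K) {X : 𝒱.Obj} (e : C.A (X.prod X))
    (n : ℤ) : Submodule K (H.A X) :=
  (TPX H X n).map (H.actL (H.cl e))

/-- The linear operator `F` is the cyclotomic Frobenius on `TP_n(X) = ⊕_i H^(2 i + n)(X)(i)`, that
is, `q^(-i) φ^*` on `H^(2 i + n)(X)`. -/
def IsCycFrob (H : WeilTheoryData.{u, v, 0} C K) {X : 𝒱.Obj} (q : ℕ) (φ : X ⟶ X) (n : ℤ)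
    (F : H.A X →ₗ[K] H.A X) : Prop :=
  ∀ (i : ℤ) (a : H.A X), H.Deg (2 * i + n) a → F a = ((q : K) ^ i)⁻¹ • H.up φ a

end Pool.Agent.Y121.TP
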