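import Pool.Agent.Y121.CF.Rat

/-!
Linear algebra: characteristic polynomials of endomorphisms with rational power sums; an
endomorphism killed by a polynomial `Q` has a characteristic polynomial dividing a power of `Q`.
-/

set_option autoImplicit false

namespace Pool.Agent.Y121.TP

open Polynomial Pool.Agent.Y121.CF

section

variable {k : Type} [Field k]

/-- If `Q(M) = 0` then the characteristic polynomial of `M` divides a power of `Q`. -/
theorem matrix_charpoly_dvd {ι : Type} [Fintype ι] [DecidableEq ι] (M : Matrix ι ι k) (Q : k[X])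
    (h : aeval M Q = 0) : M.charpoly ∣ Q ^ Fintype.card ι := by
  -- work in the ring of matrices over `k[X]`
  set a : Matrix ι ι k[X] := Matrix.scalar ι (X : k[X]) with ha
  set b : Matrix ι ι k[X] := M.map C with hb
  have hcomm : Commute a b := Matrix.scalar_commute (X : k[X]) (fun r => mul_comm _ _) b
  have h1 : ∀ n : ℕ, a - b ∣ a ^ n - b ^ n := fun n => hcomm.sub_dvd_pow_sub_pow n
  have h2 : ∀ P : k[X], a - b ∣ Matrix.scalar ι P - (aeval M P).map C := by
    intro P
    induction P using Polynomial.induction_on' with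
    | add p q hp hq =>
      have h3 := dvd_add hp hq
      have h4 : Matrix.scalar ι p - (aeval M p).map C + (Matrix.scalar ι q - (aeval M q).map C) =
          Matrix.scalar ι (p + q) - (aeval M (p + q)).map (C : k →+* k[X]) := by
        rw [map_add, map_add, Matrix.map_add _ (fun x y => C_add)]
        abel
      rw [← h4]
      exact h3
    | monomial n c =>
      have h5 : Matrix.scalar ι (monomial n c) - (aeval M (monomial n c)).map (C : k →+* k[X]) =
          (a ^ n - b ^ n) * Matrix.scalar ι (C c) := by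
        have e1 : Matrix.scalar ι (monomial n c) = a ^ n * Matrix.scalar ι (C c) := by
          rw [ha, ← map_pow, ← map_mul, mul_comm, C_mul_X_pow_eq_monomial]
        have e2 : (aeval M (monomial n c)).map (C : k →+* k[X]) =
            b ^ n * Matrix.scalar ι (C c) := by
          rw [aeval_monomial, hb]
          have e3 : (algebraMap k (Matrix ι ι k) c * M ^ n) = M ^ n * Matrix.scalar ι c := by
            rw [Algebra.commutes]
            rfl
          rw [e3, Matrix.map_mul]
          congr 1
          · exact map_pow (C : k →+* k[X]).mapMatrix M n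
          · rw [Matrix.scalar_apply, Matrix.scalar_apply, Matrix.diagonal_map (map_zero _)]
        rw [e1, e2, sub_mul]
      rw [h5]
      exact (h1 n).mul_right _
  obtain ⟨B, hB⟩ := h2 Q
  rw [h, Matrix.map_zero _ (map_zero _), sub_zero] at hB
  have h6 := congrArg Matrix.det hB
  rw [Matrix.det_mul] at h6
  have h7 : (Matrix.scalar ι Q).det = Q ^ Fintype.card ι := by
    rw [Matrix.scalar_apply, Matrix.det_diagonal, Finset.prod_const, Finset.card_univ]
  rw [h7] at h6
  exact ⟨B.det, h6⟩

theorem charpoly_dvd {V : Type*} [AddCommGroup V] [Module k V] [Module.Finite k V]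
    (f : Module.End k V) (Q : k[X]) (h : aeval f Q = 0) :
    f.charpoly ∣ Q ^ Module.finrank k V := by
  set b := Module.finBasis k V
  have h1 := matrix_charpoly_dvd (LinearMap.toMatrix b b f) Q (by
    have h2 : LinearMap.toMatrix b b (aeval f Q) = aeval (LinearMap.toMatrix b b f) Q :=
      (Polynomial.aeval_algHom_apply (LinearMap.toMatrixAlgEquiv b).toAlgHom f Q).symm
    rw [← h2, h, map_zero])
  rw [LinearMap.charpoly_toMatrix, Fintype.card_fin] at h1
  exact h1

end

variable {k : Type} [Field k] [CharZero k]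

/-- rationality of the characteristic polynomial from the rationality of the power sums -/
theorem charpoly_rational_of_trace {V : Type*} [AddCommGroup V] [Module k V] [Module.Finite k V]
    (f : Module.End k V) (h : ∀ n : ℕ, 0 < n → ∃ q : ℚ, LinearMap.trace k V (f ^ n) = (q : k)) :
    ∃ P : ℚ[X], f.charpoly = P.map (algebraMap ℚ k) := by
  classical
  set b := Module.finBasis k V
  set M := LinearMap.toMatrix b b f with hM
  have h0 : PowerSeries.coeff 0 (M.charpolyRev : PowerSeries k) = 1 := by
    rw [Polynomial.coeff_coe, constCoeff_rev]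
  have hrat := rat_of_log (deriv_charpolyRev M) h0 (by
    intro n
    obtain ⟨q, hq⟩ := h (n + 1) (Nat.succ_pos n)
    refine ⟨q, ?_⟩
    rw [ps, PowerSeries.coeff_mk, ← hq, LinearMap.trace_eq_matrix_trace k b,
      LinearMap.toMatrix_pow])
  have h1 : ∀ n, ∃ q : ℚ, f.charpoly.coeff n = (q : k) := by
    intro n
    obtain ⟨q, hq⟩ := hrat (revAt M.charpoly.natDegree n)
    refine ⟨q, ?_⟩
    rw [← hq, Polynomial.coeff_coe, ← Matrix.reverse_charpoly, coeff_reverse, revAt_invol, hM,
      LinearMap.charpoly_toMatrix]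
  have h3 : f.charpoly ∈ lifts (algebraMap ℚ k) := by
    rw [lifts_iff_coeff_lifts]
    intro n
    obtain ⟨q, hq⟩ := h1 n
    exact ⟨q, by rw [hq, eq_ratCast]⟩
  obtain ⟨P, hP⟩ := (mem_lifts _).1 h3
  exact ⟨P, hP.symm⟩

omit [CharZero k] in
theorem pow_restrict_coe {V : Type*} [AddCommGroup V] [Module k V] (f : Module.End k V)
    (N : Submodule k V) (hf : ∀ x ∈ N, f x ∈ N) (x : N) (n : ℕ) :
    ((((f.restrict hf) ^ n) x : N) : V) = (f ^ n) x := by
  induction n with
  | zero => rfl
  | succ n ih =>
    rw [pow_succ', pow_succ', Module.End.mul_apply, Module.End.mul_apply,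
      LinearMap.coe_restrict_apply, ih]

omit [CharZero k] in
/-- the value of a polynomial in a restricted endomorphism -/
theorem aeval_restrict {V : Type*} [AddCommGroup V] [Module k V] (f : Module.End k V)
    (N : Submodule k V) (hf : ∀ x ∈ N, f x ∈ N) (Q : k[X]) (x : N) :
    ((aeval (f.restrict hf) Q x : N) : V) = aeval f Q (x : V) := by
  induction Q using Polynomial.induction_on' with
  | add p q hp hq =>
    rw [map_add, map_add, LinearMap.add_apply, LinearMap.add_apply, Submodule.coe_add, hp, hq]
  | monomial n c =>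
    rw [aeval_monomial, aeval_monomial, Module.algebraMap_end_eq_smul_id,
      Module.algebraMap_end_eq_smul_id]
    change ((c • ((f.restrict hf) ^ n) x : N) : V) = c • (f ^ n) x
    rw [Submodule.coe_smul, pow_restrict_coe]

/-- complex roots of a rational polynomial dividing, over an extension, a power of another one -/
theorem root_of_dvd {P Q : ℚ[X]} {N : ℕ} (h : P.map (algebraMap ℚ k) ∣
    (Q.map (algebraMap ℚ k)) ^ N) {z : ℂ} (hz : aeval z P = 0) : aeval z Q = 0 := by
  rw [← Polynomial.map_pow, Polynomial.map_dvd_map'] at h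
  obtain ⟨R, hR⟩ := h
  have h1 : aeval z (Q ^ N) = 0 := by rw [hR, map_mul, hz, zero_mul]
  rw [map_pow] at h1
  by_contra h2
  exact pow_ne_zero N h2 h1

/-- polynomials separating pairwise coprime factors -/
theorem exists_sep (s : Finset ℤ) (P : ℤ → ℚ[X])
    (hP : ∀ i ∈ s, ∀ j ∈ s, i ≠ j → IsCoprime (P i) (P j)) :
    ∃ u : ℤ → ℚ[X], ∀ i ∈ s, (P i ∣ u i - 1) ∧ ∀ j ∈ s, j ≠ i → P j ∣ u i := by
  have h : ∀ i ∈ s, ∃ u : ℚ[X], (P i ∣ u - 1) ∧ ∀ j ∈ s, j ≠ i → P j ∣ u := by
    intro i hi
    have h1 : IsCoprime (P i) (∏ j ∈ s.erase i, P j) :=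
      IsCoprime.prod_right fun j hj => hP i hi j (Finset.mem_of_mem_erase hj)
        (Finset.ne_of_mem_erase hj).symm
    obtain ⟨a, b, hab⟩ := h1
    refine ⟨b * ∏ j ∈ s.erase i, P j, ⟨-a, ?_⟩, ?_⟩
    · rw [← hab]
      ring
    · intro j hj hji
      exact (Finset.dvd_prod_of_mem P (Finset.mem_erase.2 ⟨hji, hj⟩)).mul_left b
  choose! u hu using h
  exact ⟨u, hu⟩

/-- coprimality from absolute values of the complex roots -/
theorem coprime_of_norm {P Q : ℚ[X]} {a b : ℝ} (hab : a ≠ b)
    (hP : ∀ z : ℂ, aeval z P = 0 → ‖z‖ = a) (hQ : ∀ z : ℂ, aeval z Q = 0 → ‖z‖ = b) :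
    IsCoprime P Q := by
  refine (Polynomial.isCoprime_iff_aeval_ne_zero_of_isAlgClosed (k := ℚ) ℂ P Q).2 ?_
  intro z
  by_contra h
  push Not at h
  exact hab ((hP z h.1).symm.trans (hQ z h.2))

end Pool.Agent.Y121.TP
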