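import Pool.Agent.Y121.TP.Defs
import Pool.Agent.Y121.TP.Lin
import Pool.Agent.Y121.NK.Hom

/-!
# Frobenius and correspondences
-/

open CategoryTheory AlgebraicGeometry Polynomial

universe u v

namespace Pool.Agent.Y121.TP

open Pool.Agent.H914 Pool.Agent.H914.VarClass Pool.Agent.H914.VarClass.Obj Pool.Agent.W492.BB
  Pool.Agent.W550.Corr Pool.Agent.TH133 Pool.Agent.Y121.NK

set_option linter.unusedSectionVars false

variable {k : Type u} [Field k] {𝒱 : VarClass k} {C : TheoryData.{u, v, 0} 𝒱 ℚ}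
  [hC : IsChowProj C] {K : Type} [Field K] [CharZero K] (H : WeilTheoryData.{u, v, 0} C K)
  [hH : IsWeilProj H] {X : 𝒱.Obj}

include hC hH

/-- The pull-back `φ^*` on `H^w(X)`. -/
noncomputable def frobH (φ : X ⟶ X) (w : ℤ) : H.gr X w →ₗ[K] H.gr X w :=
  (H.pull φ).toLinearMap.restrict fun _ hx => H.pull_mem φ hx

/-- The Weil conjectures in terms of `frobH`. -/
lemma weil' [FiniteDimensional K (H.A X)] {q : ℕ} {φ : X ⟶ X} (hφ : IsFrob H q φ) (w : ℤ) :
    ∃ P : ℚ[X], (frobH H φ w).charpoly = P.map (algebraMap ℚ K) ∧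
      ∀ z : ℂ, aeval z P = 0 → ‖z‖ = (q : ℝ) ^ ((w : ℝ) / 2) := by
  obtain ⟨_, P, hP⟩ := hφ.weil w
  exact ⟨P, hP⟩

lemma cl_smul (Z : 𝒱.Obj) (q : ℚ) (z : C.A Z) : H.cl (q • z) = (q : K) • H.cl z := by
  have h1 : q • z = (q • (1 : C.A Z)) * z := by rw [smul_mul_assoc, one_mul]
  rw [h1, map_mul, cl_smul_one, smul_mul_assoc, one_mul]

lemma actH_smul (q : ℚ) (x : Cor C X) : actH C X H (q • x) = (q : K) • actH C X H x := by
  apply LinearMap.ext
  intro a
  change H.act (H.cl (q • cA C X x)) a = (q : K) • H.act (H.cl (cA C X x)) a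
  rw [cl_smul, TheoryData.act_apply, TheoryData.act_apply, smul_mul_assoc, map_smul]

variable (C) in
/-- The correspondence inducing `φ^*`. -/
noncomputable def gam (φ : X ⟶ X) : Cor C X := C.cograph φ

lemma actH_gam (φ : X ⟶ X) : actH C X H (gam C φ) = (H.pull φ).toLinearMap := by
  apply LinearMap.ext
  intro a
  change H.act (H.cl (C.cograph φ)) a = H.pull φ a
  have h1 : H.cl (C.cograph φ) = H.cograph φ := by
    rw [TheoryData.cograph, TheoryData.cograph, H.cl_push, map_one]
  rw [h1, H.act_cograph]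

lemma actH_aeval (φ : X ⟶ X) (v : ℚ[X]) : actH C X H (aeval (gam C φ) v) =
    aeval (H.pull φ).toLinearMap (v.map (algebraMap ℚ K)) := by
  induction v using Polynomial.induction_on' with
  | add p q hp hq => rw [map_add, map_add, hp, hq, Polynomial.map_add, map_add]
  | monomial n c =>
    rw [aeval_monomial, ← Algebra.smul_def, actH_smul, map_pow, actH_gam, Polynomial.map_monomial,
      aeval_monomial, ← Algebra.smul_def, eq_ratCast]

/-- Base change for the second projection. -/
lemma base_change (φ : X ⟶ X) (w : H.A (X.prod X)) :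
    H.pull φ (H.push (snd X X) w) = H.push (snd X X) (H.pull (prodMap (𝟙 X) φ) w) := by
  obtain ⟨l, hl⟩ := exists_lam H X
  let L : H.A (X.prod X) →ₗ[K] H.A X := (H.pull φ).toLinearMap ∘ₗ H.push (snd X X)
  let M : H.A (X.prod X) →ₗ[K] H.A X :=
    H.push (snd X X) ∘ₗ (H.pull (prodMap (𝟙 X) φ)).toLinearMap
  have hLM : L = M := by
    apply ext_gr H
    intro m w hw
    refine Submodule.span_induction (p := fun w _ => L w = M w) ?_ ?_ ?_ ?_
      (H.kunneth X X m hw)
    · rintro _ ⟨i, a, b, ha, hb, rfl⟩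
      change H.pull φ (H.push (snd X X) (H.pull (fst X X) a * H.pull (snd X X) b)) =
        H.push (snd X X) (H.pull (prodMap (𝟙 X) φ) (H.pull (fst X X) a * H.pull (snd X X) b))
      rw [map_mul (H.pull (prodMap (𝟙 X) φ)), ← H.pull_comp, ← H.pull_comp, prodMap_fst,
        prodMap_snd, Category.comp_id, H.pull_comp (snd X X) φ, H.proj_right, H.proj_right, hl,
        map_mul, map_smul, map_one]
    · rw [map_zero, map_zero]
    · intro x y _ _ hx hy
      rw [map_add, map_add, hx, hy]
    · intro q x _ hx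
      rw [map_smul, map_smul, hx]
  exact LinearMap.congr_fun hLM w

/-- Correspondences and Frobenius. -/
lemma equivariance (φ : X ⟶ X) {s t : K} (ht : H.push φ 1 = t • (1 : H.A X))
    {w : H.A (X.prod X)} (hw : H.pull (prodMap φ φ) w = s • w) (a : H.A X) :
    s • H.act w (H.pull φ a) = t • H.pull φ (H.act w a) := by
  set w1 := H.pull (prodMap (𝟙 X) φ) w with hw1
  -- first claim
  have h1 : H.pull φ (H.act w a) = H.act w1 a := by
    rw [TheoryData.act_apply, base_change, map_mul, ← H.pull_comp, prodMap_fst, Category.comp_id,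
      TheoryData.act_apply]
  -- second claim
  have h2 : H.pull (prodMap φ (𝟙 X)) w1 = s • w := by
    rw [hw1, ← H.pull_comp, ← hw]
    congr 1
    apply congrArg H.pull
    apply prod_ext
    · rw [Category.assoc, prodMap_fst, Category.comp_id, prodMap_fst, prodMap_fst]
    · rw [Category.assoc, prodMap_snd, ← Category.assoc, prodMap_snd, Category.comp_id,
        prodMap_snd]
  have h3 : H.push (prodMap φ (𝟙 X)) (1 : H.A (X.prod X)) = t • (1 : H.A (X.prod X)) := by
    have h4 := H.base_fst φ X (1 : H.A X)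
    rw [ht, map_smul, map_one (H.pull (fst X X))] at h4
    exact h4.symm
  rw [h1, TheoryData.act_apply, TheoryData.act_apply, ← map_smul, ← smul_mul_assoc, ← h2]
  have h5 : H.pull (fst X X) (H.pull φ a) = H.pull (prodMap φ (𝟙 X)) (H.pull (fst X X) a) := by
    rw [← H.pull_comp, ← H.pull_comp, prodMap_fst]
  rw [h5, ← map_mul]
  have h6 : snd X X = prodMap φ (𝟙 X) ≫ snd X X := by rw [prodMap_snd, Category.comp_id]
  conv_lhs => rw [h6, H.push_comp]
  have h7 : H.push (prodMap φ (𝟙 X)) (H.pull (prodMap φ (𝟙 X)) (w1 * H.pull (fst X X) a)) =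
      t • (w1 * H.pull (fst X X) a) := by
    have h8 := H.proj_left (prodMap φ (𝟙 X)) 1 (w1 * H.pull (fst X X) a)
    rw [mul_one, h3, mul_smul_comm, mul_one] at h8
    exact h8
  rw [h7, map_smul]

/-- A homogeneous correspondence of degree `j` commutes with Frobenius up to `q^j`. -/
lemma frob_act [FiniteDimensional K (H.A X)] {q : ℕ} {φ : X ⟶ X} (hφ : IsFrob H q φ) {j : ℤ}
    {x : Cor C X} (hx : (grading C X).pr j x = x) (a : H.A X) :
    H.pull φ (actH C X H x a) = (q : K) ^ j • actH C X H x (H.pull φ a) := by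
  have hq0 : (q : K) ≠ 0 := by
    have := hφ.one_lt
    exact_mod_cast (by omega : q ≠ 0)
  rw [grading_pr, prC_iff] at hx
  have h1 := hφ.frobCH.1 _ (cA C X x) hx
  have h2 : H.pull (prodMap φ φ) (H.cl (cA C X x)) =
      ((q : K) ^ (((X.dim : ℤ) + j))) • H.cl (cA C X x) := by
    have h3 := congrArg H.cl h1
    rw [cl_smul] at h3
    have h4 : H.cl (C.up (prodMap φ φ) (cA C X x)) = H.pull (prodMap φ φ) (H.cl (cA C X x)) :=
      H.cl_pull _ _
    rw [h4] at h3
    rw [h3]
    congr 1
    rw [Rat.cast_zpow, Rat.cast_natCast]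
  have ht : H.push φ 1 = ((q : K) ^ X.dim) • (1 : H.A X) := by
    have h3 := congrArg H.cl hφ.frobCH.2
    have h4 : H.cl (C.down φ (1 : C.A X)) = H.push φ (H.cl 1) := H.cl_push _ _
    rw [h4, map_one, cl_smul_one] at h3
    rw [h3]
    congr 1
    rw [Rat.cast_pow, Rat.cast_natCast]
  have h5 := equivariance H φ ht h2 a
  have h6 : (q : K) ^ (X.dim : ℤ) ≠ 0 := zpow_ne_zero _ hq0
  have h7 : actH C X H x (H.pull φ a) = H.act (H.cl (cA C X x)) (H.pull φ a) := rfl
  have h8 : actH C X H x a = H.act (H.cl (cA C X x)) a := rfl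
  rw [h7, h8]
  rw [zpow_add₀ hq0, ← zpow_natCast (q : K) X.dim, mul_smul] at h5
  have h9 := smul_right_injective (H.A X) h6 h5
  exact h9.symm

end Pool.Agent.Y121.TP
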